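import Pool.Agent.FCQ.Stmts

/-!
# The certificate in one variable: the check on lists of natural numbers
-/

set_option autoImplicit false

namespace Pool.Agent.FCQ.CMc

def mn (a b : ℕ) : ℕ := bif Nat.ble a b then a else b
def mx (a b : ℕ) : ℕ := bif Nat.ble a b then b else a

def addL : List ℕ → List ℕ → List ℕ
  | [], l => l
  | a :: l, [] => a :: l
  | a :: l, b :: l' => (a + b) :: addL l l'

def minL : List ℕ → List ℕ → List ℕ
  | [], _ => []
  | _ :: _, [] => []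
  | a :: l, b :: l' => mn a b :: minL l l'

def maxL : List ℕ → List ℕ → List ℕ
  | [], l => l
  | a :: l, [] => a :: l
  | a :: l, b :: l' => mx a b :: maxL l l'

def smL (c : ℕ) : List ℕ → List ℕ
  | [] => []
  | a :: l => (c * a) :: smL c l

def quad : List ℕ → List ℕ
  | [] => []
  | a :: l => a :: a :: a :: a :: quad l

/-- shift: entry `k` of the result is entry `k + p - q` -/
def sh (p q : ℕ) (l : List ℕ) : List ℕ :=
  bif Nat.ble q p then l.drop (p - q) else List.replicate (q - p) 0 ++ l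

/-- twice the weights -/
def W2 (a : ℕ) : ℕ := bif Nat.beq a 1 then 2 else 1

def tm (c h T V : ℕ) : ℕ :=
  bif Nat.beq V 0 then 0 else bif Nat.beq T 0 then 10 ^ 30 else (c * h ^ 3 * V) / T ^ 3 + 1

def tmL (c : ℕ) : List ℕ → List ℕ → List ℕ → List ℕ
  | [], _, _ => []
  | h :: hs, Ts, Vs => tm c h (Ts.headD 0) (Vs.headD 0) :: tmL c hs Ts.tail Vs.tail

def leL (G : ℕ) : List ℕ → List ℕ → Bool
  | [], _ => true
  | a :: l, [] => Nat.beq a 0 && leL G l []
  | a :: l, b :: l' => Nat.ble a (G * b) && leL G l l'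

def boundL (C : ℕ) : List ℕ → Bool
  | [] => true
  | a :: l => Nat.ble 1 a && (Nat.ble a C && boundL C l)

/-- the entries of `4 T h` for the digit `(a2, b2)` of the inner sum -/
def sh1 (D i a b a2 b2 : ℕ) (l0 l1 l2 : List ℕ) : List ℕ :=
  sh (3 * D * a + i * b) (3 * D * a2 + i * b2 + (b2 - b))
    (bif Nat.beq b b2 then l0 else bif Nat.beq (b - b2 + (b2 - b)) 1 then l1 else l2)

def TH (D i a b : ℕ) (l0 l1 l2 : List ℕ) : List ℕ :=
  addL (addL (addL (sh1 D i a b 0 0 l0 l1 l2) (smL 2 (sh1 D i a b 0 1 l0 l1 l2)))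
    (addL (sh1 D i a b 0 2 l0 l1 l2) (smL 2 (sh1 D i a b 1 0 l0 l1 l2))))
  (addL (addL (smL 4 (sh1 D i a b 1 1 l0 l1 l2)) (smL 2 (sh1 D i a b 1 2 l0 l1 l2)))
    (addL (sh1 D i a b 2 0 l0 l1 l2) (addL (smL 2 (sh1 D i a b 2 1 l0 l1 l2))
      (sh1 D i a b 2 2 l0 l1 l2))))

/-- the maxima of `V` -/
def VV (D i M a b : ℕ) (v0 v1 : List ℕ) : List ℕ :=
  sh (3 * M + 3 * D * a + i * b + (b - 1)) (3 * D + i) (bif Nat.beq b 1 then v0 else v1)

def term (D i M a b : ℕ) (hl l1 l2 v0 v1 : List ℕ) : List ℕ :=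
  tmL (4000 * (W2 a * W2 b)) hl (TH D i a b hl l1 l2) (VV D i M a b v0 v1)

def tot (D i M : ℕ) (hl l1 l2 v0 v1 : List ℕ) : List ℕ :=
  addL (addL (addL (term D i M 0 0 hl l1 l2 v0 v1) (term D i M 0 1 hl l1 l2 v0 v1))
    (addL (term D i M 0 2 hl l1 l2 v0 v1) (term D i M 1 0 hl l1 l2 v0 v1)))
  (addL (addL (term D i M 1 1 hl l1 l2 v0 v1) (term D i M 1 2 hl l1 l2 v0 v1))
    (addL (term D i M 2 0 hl l1 l2 v0 v1) (addL (term D i M 2 1 hl l1 l2 v0 v1)
      (term D i M 2 2 hl l1 l2 v0 v1))))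

def main (D i M G : ℕ) (hl vl : List ℕ) : Bool :=
  leL G (tot D i M hl (minL hl (hl.drop 1)) (minL (minL hl (hl.drop 1)) (hl.drop 2))
    (quad vl) (maxL (0 :: quad vl) (quad vl))) vl

/-- the full check; `hr`, `vr` are the halves of the tables -/
def chk (D i M G : ℕ) (hr vr : List ℕ) : Bool :=
  Nat.ble (96 * M) (93 * D + 32 * i) && (Nat.blt (27 * D + 10 * (i + 1)) (30 * M) &&
  (Nat.beq hr.length M && (Nat.beq vr.length M &&
  (boundL (2 ^ 24) hr && (boundL (2 ^ 24) vr && (Nat.ble G 10000 &&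
    main D i M G (hr.reverse ++ hr) (vr.reverse ++ vr)))))))

end Pool.Agent.FCQ.CMc
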