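import Pool.Agent.FCQ.CMc.Chk

/-!
# The certificate in one variable: soundness of the check
-/

set_option autoImplicit false

namespace Pool.Agent.FCQ.CMc

theorem ble_iff {a b : ℕ} : Nat.ble a b = true ↔ a ≤ b :=
  ⟨Nat.le_of_ble_eq_true, Nat.ble_eq_true_of_le⟩

theorem mn_eq (a b : ℕ) : mn a b = min a b := by
  unfold mn
  by_cases h : a ≤ b
  · rw [show Nat.ble a b = true from ble_iff.2 h, cond_true, min_eq_left h]
  · rw [show Nat.ble a b = false from by
      rw [Bool.eq_false_iff]; exact fun h' => h (ble_iff.1 h'), cond_false,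
      min_eq_right (by omega)]

theorem mx_eq (a b : ℕ) : mx a b = max a b := by
  unfold mx
  by_cases h : a ≤ b
  · rw [show Nat.ble a b = true from ble_iff.2 h, cond_true, max_eq_right h]
  · rw [show Nat.ble a b = false from by
      rw [Bool.eq_false_iff]; exact fun h' => h (ble_iff.1 h'), cond_false,
      max_eq_left (by omega)]

theorem getD_addL (l l' : List ℕ) (k : ℕ) :
    (addL l l').getD k 0 = l.getD k 0 + l'.getD k 0 := by
  induction l generalizing l' k with
  | nil => simp [addL]
  | cons a l ih =>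
    cases l' with
    | nil => simp [addL]
    | cons b l' =>
      cases k with
      | zero => simp [addL]
      | succ k => simpa [addL] using ih l' k

theorem getD_minL (l l' : List ℕ) (k : ℕ) :
    (minL l l').getD k 0 = min (l.getD k 0) (l'.getD k 0) := by
  induction l generalizing l' k with
  | nil => simp [minL]
  | cons a l ih =>
    cases l' with
    | nil => simp [minL]
    | cons b l' =>
      cases k with
      | zero => simp [minL, mn_eq]
      | succ k => simpa [minL] using ih l' k

theorem getD_maxL (l l' : List ℕ) (k : ℕ) :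
    (maxL l l').getD k 0 = max (l.getD k 0) (l'.getD k 0) := by
  induction l generalizing l' k with
  | nil => simp [maxL]
  | cons a l ih =>
    cases l' with
    | nil => simp [maxL]
    | cons b l' =>
      cases k with
      | zero => simp [maxL, mx_eq]
      | succ k => simpa [maxL] using ih l' k

theorem getD_smL (c : ℕ) (l : List ℕ) (k : ℕ) : (smL c l).getD k 0 = c * l.getD k 0 := by
  induction l generalizing k with
  | nil => simp [smL]
  | cons a l ih =>
    cases k with
    | zero => simp [smL]
    | succ k => simpa [smL] using ih k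

theorem getD_quad (l : List ℕ) (k : ℕ) : (quad l).getD k 0 = l.getD (k / 4) 0 := by
  induction l generalizing k with
  | nil => simp [quad]
  | cons a l ih =>
    match k with
    | 0 => simp [quad]
    | 1 => simp [quad]
    | 2 => simp [quad]
    | 3 => simp [quad]
    | k + 4 =>
      have h : (k + 4) / 4 = k / 4 + 1 := by omega
      rw [h]
      simpa [quad] using ih k

theorem getD_sh (p q : ℕ) (l : List ℕ) (k : ℕ) :
    (sh p q l).getD k 0 = if q ≤ k + p then l.getD (k + p - q) 0 else 0 := by
  unfold sh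
  by_cases h : q ≤ p
  · rw [show Nat.ble q p = true from ble_iff.2 h, cond_true, if_pos (by omega)]
    rw [List.getD_eq_getElem?_getD, List.getD_eq_getElem?_getD, List.getElem?_drop]
    congr 2
    omega
  · rw [show Nat.ble q p = false from by
      rw [Bool.eq_false_iff]; exact fun h' => h (ble_iff.1 h'), cond_false]
    rw [List.getD_eq_getElem?_getD, List.getD_eq_getElem?_getD]
    by_cases h2 : q ≤ k + p
    · rw [if_pos h2, List.getElem?_append_right (by rw [List.length_replicate]; omega),
        List.length_replicate]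
      congr 2
      omega
    · rw [if_neg h2, List.getElem?_append_left (by rw [List.length_replicate]; omega)]
      rw [List.getElem?_replicate]
      split <;> rfl

/-- entry with an integer index -/
def g (l : List ℕ) (k : ℤ) : ℕ := if 0 ≤ k then l.getD k.toNat 0 else 0

theorem g_ofNat (l : List ℕ) (k : ℕ) : g l (k : ℤ) = l.getD k 0 := by
  unfold g
  rw [if_pos (by omega), Int.toNat_natCast]

theorem g_neg {l : List ℕ} {k : ℤ} (h : k < 0) : g l k = 0 := by
  unfold g
  rw [if_neg (by omega)]

theorem g_ge {l : List ℕ} {k : ℤ} (h : (l.length : ℤ) ≤ k) : g l k = 0 := by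
  unfold g
  split
  · rw [List.getD_eq_getElem?_getD, List.getElem?_eq_none (by omega)]
    rfl
  · rfl

theorem g_sh (p q : ℕ) (l : List ℕ) (k : ℤ) (hk : 0 ≤ k) :
    g (sh p q l) k = g l (k + p - q) := by
  obtain ⟨n, rfl⟩ := Int.eq_ofNat_of_zero_le hk
  rw [g_ofNat, getD_sh]
  by_cases h : q ≤ n + p
  · rw [if_pos h]
    have : (n : ℤ) + p - q = ((n + p - q : ℕ) : ℤ) := by omega
    rw [this, g_ofNat]
  · rw [if_neg h, g_neg (by omega)]

theorem g_minL_left (l l' : List ℕ) (k : ℤ) : g (minL l l') k ≤ g l k := by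
  by_cases hk : 0 ≤ k
  · obtain ⟨n, rfl⟩ := Int.eq_ofNat_of_zero_le hk
    rw [g_ofNat, g_ofNat, getD_minL]
    exact min_le_left _ _
  · rw [g_neg (by omega)]
    exact Nat.zero_le _

theorem g_minL_right (l l' : List ℕ) (k : ℤ) : g (minL l l') k ≤ g l' k := by
  by_cases hk : 0 ≤ k
  · obtain ⟨n, rfl⟩ := Int.eq_ofNat_of_zero_le hk
    rw [g_ofNat, g_ofNat, getD_minL]
    exact min_le_right _ _
  · rw [g_neg (by omega)]
    exact Nat.zero_le _

theorem g_drop_le (l : List ℕ) (n : ℕ) (k : ℤ) : g (l.drop n) k ≤ g l (k + n) := by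
  by_cases hk : 0 ≤ k
  · obtain ⟨m, rfl⟩ := Int.eq_ofNat_of_zero_le hk
    have : (m : ℤ) + n = ((m + n : ℕ) : ℤ) := by push_cast; ring
    rw [this, g_ofNat, g_ofNat, List.getD_eq_getElem?_getD, List.getD_eq_getElem?_getD,
      List.getElem?_drop, Nat.add_comm n m]
  · rw [g_neg (by omega)]
    exact Nat.zero_le _

theorem g_quad (l : List ℕ) (k : ℤ) : g (quad l) k = g l (k / 4) := by
  by_cases hk : 0 ≤ k
  · obtain ⟨m, rfl⟩ := Int.eq_ofNat_of_zero_le hk
    have : (m : ℤ) / 4 = ((m / 4 : ℕ) : ℤ) := by push_cast; rfl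
    rw [this, g_ofNat, g_ofNat, getD_quad]
  · rw [g_neg (by omega), g_neg (by omega)]

theorem g_v1_left (l : List ℕ) (k : ℤ) : g l (k - 1) ≤ g (maxL (0 :: l) l) k := by
  by_cases hk : 1 ≤ k
  · obtain ⟨m, rfl⟩ := Int.eq_ofNat_of_zero_le (show 0 ≤ k by omega)
    obtain ⟨m', rfl⟩ : ∃ m', m = m' + 1 := ⟨m - 1, by omega⟩
    have : ((m' + 1 : ℕ) : ℤ) - 1 = (m' : ℤ) := by push_cast; ring
    rw [this, g_ofNat, g_ofNat, getD_maxL]
    refine le_trans ?_ (le_max_left _ _)
    simp
  · rw [g_neg (by omega)]
    exact Nat.zero_le _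

theorem g_v1_right (l : List ℕ) (k : ℤ) : g l k ≤ g (maxL (0 :: l) l) k := by
  by_cases hk : 0 ≤ k
  · obtain ⟨m, rfl⟩ := Int.eq_ofNat_of_zero_le hk
    rw [g_ofNat, g_ofNat, getD_maxL]
    exact le_max_right _ _
  · rw [g_neg (by omega)]
    exact Nat.zero_le _

theorem getD_tmL (c : ℕ) (hs Ts Vs : List ℕ) (k : ℕ) (hk : k < hs.length) :
    (tmL c hs Ts Vs).getD k 0 = tm c (hs.getD k 0) (Ts.getD k 0) (Vs.getD k 0) := by
  induction hs generalizing Ts Vs k with
  | nil => simp at hk
  | cons a l ih =>
    cases k with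
    | zero =>
      cases Ts <;> cases Vs <;> simp [tmL]
    | succ k =>
      have := ih Ts.tail Vs.tail k (by simpa using hk)
      cases Ts <;> cases Vs <;> simpa [tmL] using this

theorem leL_le (G : ℕ) (l l' : List ℕ) (h : leL G l l' = true) (k : ℕ) :
    l.getD k 0 ≤ G * l'.getD k 0 := by
  induction l generalizing l' k with
  | nil => simp
  | cons a l ih =>
    cases l' with
    | nil =>
      simp only [leL, Bool.and_eq_true] at h
      cases k with
      | zero =>
        have := Nat.eq_of_beq_eq_true h.1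
        simp [this]
      | succ k => simpa using ih [] h.2 k
    | cons b l' =>
      simp only [leL, Bool.and_eq_true] at h
      cases k with
      | zero => simpa using ble_iff.1 h.1
      | succ k => simpa using ih l' h.2 k

theorem boundL_le (C : ℕ) (l : List ℕ) (h : boundL C l = true) : ∀ a ∈ l, 1 ≤ a ∧ a ≤ C := by
  induction l with
  | nil => simp
  | cons a l ih =>
    simp only [boundL, Bool.and_eq_true] at h
    intro b hb
    rcases List.mem_cons.1 hb with rfl | hb
    · exact ⟨ble_iff.1 h.1, ble_iff.1 h.2.1⟩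
    · exact ih h.2.2 b hb

end Pool.Agent.FCQ.CMc
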