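import Pool.Agent.FCQ.CMc.Sound

/-!
# The certificate in one variable: from the check to the inequality
-/

set_option autoImplicit false

namespace Pool.Agent.FCQ.CMc

/-- the function of a table -/
noncomputable def fh (D M : ℕ) (l : List ℕ) (x : ℝ) : ℝ := (g l (⌊x * D⌋ + M) : ℝ)

theorem fh_nonneg (D M : ℕ) (l : List ℕ) (x : ℝ) : 0 ≤ fh D M l x := Nat.cast_nonneg _

theorem measurable_fh (D M : ℕ) (l : List ℕ) : Measurable (fh D M l) := by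
  unfold fh
  have h1 : Measurable fun x : ℝ => ⌊x * D⌋ + (M : ℤ) :=
    (Int.measurable_floor.comp (measurable_id.mul_const _)).add_const _
  exact (measurable_of_countable (fun k : ℤ => (g l k : ℝ))).comp h1

/-- floors of perturbed numbers -/
theorem floor_pos (y τ : ℝ) (n : ℕ) (h0 : 0 ≤ τ) (h1 : τ ≤ 1) :
    ⌊y⌋ ≤ ⌊y + τ * n⌋ ∧ ⌊y + τ * n⌋ ≤ ⌊y⌋ + n := by
  have hn : (0 : ℝ) ≤ n := Nat.cast_nonneg n
  constructor
  · exact Int.floor_le_floor (by nlinarith)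
  · rw [← Int.floor_add_natCast]
    exact Int.floor_le_floor (by nlinarith)

theorem floor_neg (y τ : ℝ) (n : ℕ) (h0 : 0 ≤ τ) (h1 : τ ≤ 1) :
    ⌊y⌋ - n ≤ ⌊y - τ * n⌋ ∧ ⌊y - τ * n⌋ ≤ ⌊y⌋ := by
  have hn : (0 : ℝ) ≤ n := Nat.cast_nonneg n
  constructor
  · rw [← Int.floor_sub_natCast]
    exact Int.floor_le_floor (by nlinarith)
  · exact Int.floor_le_floor (by nlinarith)

/-- the entries of the list `sh1` are lower bounds of `h` -/
theorem sh1_le (D i M a b a2 b2 : ℕ) (hb : b ≤ 2) (hb2 : b2 ≤ 2) (hl : List ℕ) (r τ y : ℝ)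
    (h0 : 0 ≤ τ) (h1 : τ ≤ 1) (hk : 0 ≤ ⌊r * D⌋ + (M : ℤ))
    (hy : y * D = r * D + 3 * D * ((a : ℝ) - a2) + (i + τ) * ((b : ℝ) - b2)) :
    (g (sh1 D i a b a2 b2 hl (minL hl (hl.drop 1)) (minL (minL hl (hl.drop 1)) (hl.drop 2)))
      (⌊r * D⌋ + (M : ℤ)) : ℝ) ≤ fh D M hl y := by
  unfold fh
  have m1 : ∀ j : ℤ, g (minL hl (hl.drop 1)) j ≤ g hl j := fun j => g_minL_left _ _ _
  have m2 : ∀ j : ℤ, g (minL hl (hl.drop 1)) j ≤ g hl (j + 1) := fun j =>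
    (g_minL_right _ _ _).trans (by simpa using g_drop_le hl 1 j)
  have n1 : ∀ j : ℤ, g (minL (minL hl (hl.drop 1)) (hl.drop 2)) j ≤ g hl j := fun j =>
    (g_minL_left _ _ _).trans (m1 j)
  have n2 : ∀ j : ℤ, g (minL (minL hl (hl.drop 1)) (hl.drop 2)) j ≤ g hl (j + 1) := fun j =>
    (g_minL_left _ _ _).trans (m2 j)
  have n3 : ∀ j : ℤ, g (minL (minL hl (hl.drop 1)) (hl.drop 2)) j ≤ g hl (j + 2) := fun j =>
    (g_minL_right _ _ _).trans (by simpa using g_drop_le hl 2 j)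
  unfold sh1
  rw [g_sh _ _ _ _ hk]
  set k : ℤ := ⌊r * D⌋ + (M : ℤ) with hkdef
  norm_cast
  have key : ∀ e : ℤ, ⌊y * D⌋ + (M : ℤ) = k + (3 * D * a + i * b) - (3 * D * a2 + i * b2) + e →
      ⌊y * D⌋ + (M : ℤ) = k + (3 * D * a + i * b) - (3 * D * a2 + i * b2) + e := fun _ h => h
  rcases Nat.lt_trichotomy b b2 with hlt | heq | hgt
  · -- negative
    obtain ⟨n, rfl⟩ : ∃ n, b2 = b + n := ⟨b2 - b, by omega⟩
    have hn : n = 1 ∨ n = 2 := by omega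
    have e1 : y * D = (r * D - τ * n) + ((3 * D * a + i * b : ℤ) - (3 * D * a2 + i * (b + n) : ℤ) : ℤ) := by
      rw [hy]; push_cast; ring
    have e2 : ⌊y * D⌋ = ⌊r * D - τ * n⌋ + ((3 * D * a + i * b : ℤ) - (3 * D * a2 + i * (b + n) : ℤ)) := by
      rw [e1, Int.floor_add_intCast]
    have f := floor_neg (r * D) τ n h0 h1
    have hc : b - (b + n) + (b + n - b) = n := by omega
    have hd : b + n - b = n := by omega
    have hne : Nat.beq b (b + n) = false := by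
      rw [Bool.eq_false_iff]; intro h'; have := Nat.eq_of_beq_eq_true h'; omega
    rw [hne, cond_false, hc, hd]
    rcases hn with rfl | rfl
    · rw [show Nat.beq 1 1 = true from rfl, cond_true]
      obtain h | h : ⌊y * D⌋ + (M : ℤ) = (k + ((3 * D * a + i * b : ℕ) : ℤ) - ((3 * D * a2 + i * (b + 1) + 1 : ℕ) : ℤ)) ∨
          ⌊y * D⌋ + (M : ℤ) = (k + ((3 * D * a + i * b : ℕ) : ℤ) - ((3 * D * a2 + i * (b + 1) + 1 : ℕ) : ℤ)) + 1 := by
        rw [e2, hkdef]; push_cast at f ⊢; omega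
      · rw [h]; exact m1 _
      · rw [h]; exact m2 _
    · rw [show Nat.beq 2 1 = false from rfl, cond_false]
      obtain h | h | h : ⌊y * D⌋ + (M : ℤ) = (k + ((3 * D * a + i * b : ℕ) : ℤ) - ((3 * D * a2 + i * (b + 2) + 2 : ℕ) : ℤ)) ∨
          ⌊y * D⌋ + (M : ℤ) = (k + ((3 * D * a + i * b : ℕ) : ℤ) - ((3 * D * a2 + i * (b + 2) + 2 : ℕ) : ℤ)) + 1 ∨
          ⌊y * D⌋ + (M : ℤ) = (k + ((3 * D * a + i * b : ℕ) : ℤ) - ((3 * D * a2 + i * (b + 2) + 2 : ℕ) : ℤ)) + 2 := by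
        rw [e2, hkdef]; push_cast at f ⊢; omega
      · rw [h]; exact n1 _
      · rw [h]; exact n2 _
      · rw [h]; exact n3 _
  · subst heq
    have e1 : y * D = r * D + ((3 * D * a : ℤ) - (3 * D * a2 : ℤ) : ℤ) := by
      rw [hy]; push_cast; ring
    have e2 : ⌊y * D⌋ = ⌊r * D⌋ + ((3 * D * a : ℤ) - (3 * D * a2 : ℤ)) := by
      rw [e1, Int.floor_add_intCast]
    have hbb : Nat.beq b b = true := Nat.beq_refl b
    rw [hbb, cond_true, e2, hkdef]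
    apply le_of_eq
    congr 1
    push_cast
    have : ((b - b : ℕ) : ℤ) = 0 := by simp
    rw [this]
    ring
  · obtain ⟨n, rfl⟩ : ∃ n, b = b2 + n := ⟨b - b2, by omega⟩
    have hn : n = 1 ∨ n = 2 := by omega
    have e1 : y * D = (r * D + τ * n) + ((3 * D * a + i * (b2 + n) : ℤ) - (3 * D * a2 + i * b2 : ℤ) : ℤ) := by
      rw [hy]; push_cast; ring
    have e2 : ⌊y * D⌋ = ⌊r * D + τ * n⌋ + ((3 * D * a + i * (b2 + n) : ℤ) - (3 * D * a2 + i * b2 : ℤ)) := by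
      rw [e1, Int.floor_add_intCast]
    have f := floor_pos (r * D) τ n h0 h1
    have hc : b2 + n - b2 + (b2 - (b2 + n)) = n := by omega
    have hd : b2 - (b2 + n) = 0 := by omega
    have hne : Nat.beq (b2 + n) b2 = false := by
      rw [Bool.eq_false_iff]; intro h'; have := Nat.eq_of_beq_eq_true h'; omega
    rw [hne, cond_false, hc, hd]
    rcases hn with rfl | rfl
    · rw [show Nat.beq 1 1 = true from rfl, cond_true]
      obtain h | h : ⌊y * D⌋ + (M : ℤ) = (k + ((3 * D * a + i * (b2 + 1) : ℕ) : ℤ) - ((3 * D * a2 + i * b2 + 0 : ℕ) : ℤ)) ∨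
          ⌊y * D⌋ + (M : ℤ) = (k + ((3 * D * a + i * (b2 + 1) : ℕ) : ℤ) - ((3 * D * a2 + i * b2 + 0 : ℕ) : ℤ)) + 1 := by
        rw [e2, hkdef]; push_cast at f ⊢; omega
      · rw [h]; exact m1 _
      · rw [h]; exact m2 _
    · rw [show Nat.beq 2 1 = false from rfl, cond_false]
      obtain h | h | h : ⌊y * D⌋ + (M : ℤ) = (k + ((3 * D * a + i * (b2 + 2) : ℕ) : ℤ) - ((3 * D * a2 + i * b2 + 0 : ℕ) : ℤ)) ∨
          ⌊y * D⌋ + (M : ℤ) = (k + ((3 * D * a + i * (b2 + 2) : ℕ) : ℤ) - ((3 * D * a2 + i * b2 + 0 : ℕ) : ℤ)) + 1 ∨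
          ⌊y * D⌋ + (M : ℤ) = (k + ((3 * D * a + i * (b2 + 2) : ℕ) : ℤ) - ((3 * D * a2 + i * b2 + 0 : ℕ) : ℤ)) + 2 := by
        rw [e2, hkdef]; push_cast at f ⊢; omega
      · rw [h]; exact n1 _
      · rw [h]; exact n2 _
      · rw [h]; exact n3 _

/-- the entries of the list `VV` are upper bounds of `V` -/
theorem le_VV (D i M a b : ℕ) (hb : b ≤ 2) (vl : List ℕ) (r τ x : ℝ)
    (h0 : 0 ≤ τ) (h1 : τ ≤ 1) (hk : 0 ≤ ⌊r * D⌋ + (M : ℤ))
    (hx : 4 * (x * D) = r * D + 3 * D * ((a : ℝ) - 1) + (i + τ) * ((b : ℝ) - 1)) :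
    fh D M vl x ≤ (g (VV D i M a b (quad vl) (maxL (0 :: quad vl) (quad vl)))
      (⌊r * D⌋ + (M : ℤ)) : ℝ) := by
  unfold fh
  have q1 : ∀ j : ℤ, g (quad vl) (j - 1) ≤ g (maxL (0 :: quad vl) (quad vl)) j := fun j =>
    g_v1_left _ _
  have q2 : ∀ j : ℤ, g (quad vl) j ≤ g (maxL (0 :: quad vl) (quad vl)) j := fun j =>
    g_v1_right _ _
  have hf : ⌊x * D⌋ = ⌊4 * (x * D)⌋ / 4 := by
    have h := Int.floor_div_natCast (4 * (x * D)) 4
    rw [← Nat.cast_ofNat (R := ℤ)] 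
    rw [← h]
    congr 1
    push_cast
    ring
  have hq : g vl (⌊x * D⌋ + (M : ℤ)) = g (quad vl) (⌊4 * (x * D)⌋ + 4 * M) := by
    rw [g_quad, hf]
    congr 1
    omega
  rw [hq]
  unfold VV
  rw [g_sh _ _ _ _ hk]
  set k : ℤ := ⌊r * D⌋ + (M : ℤ) with hkdef
  norm_cast
  obtain rfl | rfl | rfl : b = 0 ∨ b = 1 ∨ b = 2 := by omega
  · have e1 : 4 * (x * D) = (r * D - τ * (1 : ℕ)) + ((3 * D * a - (3 * D + i) : ℤ) : ℤ) := by
      rw [hx]; push_cast; ring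
    have e2 : ⌊4 * (x * D)⌋ = ⌊r * D - τ * (1 : ℕ)⌋ + (3 * D * a - (3 * D + i) : ℤ) := by
      rw [e1, Int.floor_add_intCast]
    have f := floor_neg (r * D) τ 1 h0 h1
    rw [show Nat.beq 0 1 = false from rfl, cond_false]
    obtain h | h : ⌊4 * (x * D)⌋ + ((4 * M : ℕ) : ℤ) = (k + ((3 * M + 3 * D * a + i * 0 + (0 - 1) : ℕ) : ℤ) - ((3 * D + i : ℕ) : ℤ)) - 1 ∨
        ⌊4 * (x * D)⌋ + ((4 * M : ℕ) : ℤ) = (k + ((3 * M + 3 * D * a + i * 0 + (0 - 1) : ℕ) : ℤ) - ((3 * D + i : ℕ) : ℤ)) := by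
      rw [e2, hkdef]; push_cast at f ⊢; omega
    · rw [h]; exact q1 _
    · rw [h]; exact q2 _
  · have e1 : 4 * (x * D) = r * D + ((3 * D * a - 3 * D : ℤ) : ℤ) := by
      rw [hx]; push_cast; ring
    have e2 : ⌊4 * (x * D)⌋ = ⌊r * D⌋ + (3 * D * a - 3 * D : ℤ) := by
      rw [e1, Int.floor_add_intCast]
    rw [show Nat.beq 1 1 = true from rfl, cond_true, e2, hkdef]
    apply le_of_eq
    congr 1
    push_cast
    ring
  · have e1 : 4 * (x * D) = (r * D + τ * (1 : ℕ)) + ((3 * D * a + i - 3 * D : ℤ) : ℤ) := by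
      rw [hx]; push_cast; ring
    have e2 : ⌊4 * (x * D)⌋ = ⌊r * D + τ * (1 : ℕ)⌋ + (3 * D * a + i - 3 * D : ℤ) := by
      rw [e1, Int.floor_add_intCast]
    have f := floor_pos (r * D) τ 1 h0 h1
    rw [show Nat.beq 2 1 = false from rfl, cond_false]
    obtain h | h : ⌊4 * (x * D)⌋ + ((4 * M : ℕ) : ℤ) = (k + ((3 * M + 3 * D * a + i * 2 + (2 - 1) : ℕ) : ℤ) - ((3 * D + i : ℕ) : ℤ)) - 1 ∨
        ⌊4 * (x * D)⌋ + ((4 * M : ℕ) : ℤ) = (k + ((3 * M + 3 * D * a + i * 2 + (2 - 1) : ℕ) : ℤ) - ((3 * D + i : ℕ) : ℤ)) := by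
      rw [e2, hkdef]; push_cast at f ⊢; omega
    · rw [h]; exact q1 _
    · rw [h]; exact q2 _

end Pool.Agent.FCQ.CMc
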