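import Pool.Agent.FCQ.CMc.Sound2

/-!
# The certificate in one variable: soundness
-/

set_option autoImplicit false

namespace Pool.Agent.FCQ.CMc

open Set

theorem g_addL (l l' : List ℕ) (k : ℤ) : g (addL l l') k = g l k + g l' k := by
  unfold g
  split
  · exact getD_addL _ _ _
  · rfl

theorem g_smL (c : ℕ) (l : List ℕ) (k : ℤ) : g (smL c l) k = c * g l k := by
  unfold g
  split
  · exact getD_smL _ _ _
  · rfl

theorem g_tmL (c : ℕ) (hs Ts Vs : List ℕ) (k : ℤ) (h0 : 0 ≤ k) (hk : k < hs.length) :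
    g (tmL c hs Ts Vs) k = tm c (g hs k) (g Ts k) (g Vs k) := by
  obtain ⟨n, rfl⟩ := Int.eq_ofNat_of_zero_le h0
  rw [g_ofNat, g_ofNat, g_ofNat, g_ofNat, getD_tmL _ _ _ _ _ (by omega)]

theorem g_leL (G : ℕ) (l l' : List ℕ) (h : leL G l l' = true) (k : ℤ) :
    g l k ≤ G * g l' k := by
  unfold g
  split
  · exact leL_le _ _ _ h _
  · simp

theorem wt_eq (a : Fin 3) : wt a = (W2 a.val : ℝ) / 2 := by
  fin_cases a
  · show wt 0 = ((W2 0 : ℕ) : ℝ) / 2
    rw [wt_zero, show W2 0 = 1 from rfl]; norm_num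
  · show wt 1 = ((W2 1 : ℕ) : ℝ) / 2
    rw [wt_one, show W2 1 = 2 from rfl]; norm_num
  · show wt 2 = ((W2 2 : ℕ) : ℝ) / 2
    rw [wt_two, show W2 2 = 1 from rfl]; norm_num

/-- one term -/
theorem tm_ge (W h T4 V : ℕ) (Th Vx : ℝ) (hW : 0 < W) (h1 : (T4 : ℝ) / 4 ≤ Th) (h2 : 0 ≤ Vx)
    (h3 : Vx ≤ V) (h4 : tm (4000 * W) h T4 V < 10 ^ 30) :
    (W : ℝ) / 16 * ((h : ℝ) / Th) ^ 3 * Vx ≤ (tm (4000 * W) h T4 V : ℝ) / 1000 := by
  unfold tm at h4 ⊢
  by_cases hV : V = 0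
  · subst hV
    rw [show Nat.beq 0 0 = true from rfl, cond_true]
    have : Vx = 0 := le_antisymm (by simpa using h3) h2
    rw [this]; simp
  · have hVb : Nat.beq V 0 = false := by
      rw [Bool.eq_false_iff]; intro h'; exact hV (Nat.eq_of_beq_eq_true h')
    rw [hVb, cond_false] at h4 ⊢
    by_cases hT : T4 = 0
    · subst hT
      rw [show Nat.beq 0 0 = true from rfl, cond_true] at h4
      exact absurd h4 (lt_irrefl _)
    · have hTb : Nat.beq T4 0 = false := by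
        rw [Bool.eq_false_iff]; intro h'; exact hT (Nat.eq_of_beq_eq_true h')
      rw [hTb, cond_false]
      have hT' : (0 : ℝ) < T4 := by exact_mod_cast Nat.pos_of_ne_zero hT
      have hh : (0 : ℝ) ≤ h := Nat.cast_nonneg h
      have hdiv : ((4000 * W * h ^ 3 * V : ℕ) : ℝ) / ((T4 ^ 3 : ℕ) : ℝ) <
          (((4000 * W * h ^ 3 * V) / T4 ^ 3 + 1 : ℕ) : ℝ) := by
        rw [div_lt_iff₀ (by positivity)]
        have := Nat.lt_div_mul_add (a := 4000 * W * h ^ 3 * V) (b := T4 ^ 3) (by positivity)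
        have e : ((4000 * W * h ^ 3 * V) / T4 ^ 3 + 1) * T4 ^ 3 =
            (4000 * W * h ^ 3 * V) / T4 ^ 3 * T4 ^ 3 + T4 ^ 3 := by ring
        rw [← Nat.cast_mul]
        exact_mod_cast e ▸ this
      have hTh : 0 < Th := by linarith [div_pos hT' (by norm_num : (0 : ℝ) < 4)]
      have hq : (h : ℝ) / Th ≤ 4 * h / T4 := by
        rw [div_le_div_iff₀ hTh hT']
        nlinarith
      have hq3 : ((h : ℝ) / Th) ^ 3 ≤ (4 * h / T4) ^ 3 :=
        pow_le_pow_left₀ (by positivity) hq 3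
      calc (W : ℝ) / 16 * ((h : ℝ) / Th) ^ 3 * Vx ≤ (W : ℝ) / 16 * (4 * h / T4) ^ 3 * V := by
            gcongr
        _ = ((4000 * W * h ^ 3 * V : ℕ) : ℝ) / ((T4 ^ 3 : ℕ) : ℝ) / 1000 := by
            push_cast
            field_simp
            ring
        _ ≤ _ := by
            gcongr

theorem fin_le (a : Fin 3) : a.val ≤ 2 := by omega

theorem W2_pos (a : ℕ) : 0 < W2 a := by unfold W2; cases Nat.beq a 1 <;> simp

/-- lower bound for `T h` -/
theorem TH_le (D i M : ℕ) (hD : 0 < D) (t τ : ℝ) (hτ : 3 * D * t = i + τ) (h0 : 0 ≤ τ) (h1 : τ ≤ 1)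
    (hl : List ℕ) (r : ℝ) (hk : 0 ≤ ⌊r * D⌋ + (M : ℤ)) (a b : Fin 3) :
    (g (TH D i a.val b.val hl (minL hl (hl.drop 1)) (minL (minL hl (hl.drop 1)) (hl.drop 2)))
      (⌊r * D⌋ + (M : ℤ)) : ℝ) / 4 ≤ T t (fh D M hl) ((r + dv a + t * dv b) / 4) := by
  have key : ∀ a2 b2 : Fin 3,
      (g (sh1 D i a.val b.val a2.val b2.val hl (minL hl (hl.drop 1))
        (minL (minL hl (hl.drop 1)) (hl.drop 2))) (⌊r * D⌋ + (M : ℤ)) : ℝ) ≤
      fh D M hl (4 * ((r + dv a + t * dv b) / 4) - dv a2 - t * dv b2) := by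
    intro a2 b2
    refine sh1_le D i M a.val b.val a2.val b2.val (fin_le b) (fin_le b2) hl r τ _ h0 h1 hk ?_
    rw [← hτ]
    unfold dv
    ring
  have k00 := key 0 0
  have k01 := key 0 1
  have k02 := key 0 2
  have k10 := key 1 0
  have k11 := key 1 1
  have k12 := key 1 2
  have k20 := key 2 0
  have k21 := key 2 1
  have k22 := key 2 2
  unfold T TH
  simp only [Fin.sum_univ_three, wt_zero, wt_one, wt_two, g_addL, g_smL]
  simp only [Fin.val_zero, Fin.val_one, Fin.val_two] at k00 k01 k02 k10 k11 k12 k20 k21 k22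
  push_cast
  linarith

/-- the main inequality -/
theorem ineq (D i M G : ℕ) (hD : 0 < D) (t τ : ℝ) (hτ : 3 * D * t = i + τ) (h0 : 0 ≤ τ)
    (h1 : τ ≤ 1) (hl vl : List ℕ) (hG : G ≤ 10000)
    (hv : ∀ k : ℤ, g vl k ≤ 2 ^ 24) (hm : main D i M G hl vl = true) (r : ℝ) :
    ∑ a : Fin 3, ∑ b : Fin 3, wt a * wt b / 4 *
      (fh D M hl r / T t (fh D M hl) ((r + dv a + t * dv b) / 4)) ^ 3 *
        fh D M vl ((r + dv a + t * dv b) / 4) ≤ (G : ℝ) / 1000 * fh D M vl r := by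
  by_cases hk : 0 ≤ ⌊r * D⌋ + (M : ℤ) ∧ ⌊r * D⌋ + (M : ℤ) < hl.length
  · obtain ⟨hk0, hk1⟩ := hk
    have hle := g_leL _ _ _ hm (⌊r * D⌋ + (M : ℤ))
    set l1 := minL hl (hl.drop 1) with hl1
    set l2 := minL (minL hl (hl.drop 1)) (hl.drop 2) with hl2
    set v0 := quad vl with hv0
    set v1 := maxL (0 :: quad vl) (quad vl) with hv1
    unfold tot at hle
    simp only [g_addL] at hle
    have hbig : G * g vl (⌊r * D⌋ + (M : ℤ)) < 10 ^ 30 := by
      have := hv (⌊r * D⌋ + (M : ℤ))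
      calc G * g vl (⌊r * D⌋ + (M : ℤ)) ≤ 10000 * 2 ^ 24 := Nat.mul_le_mul hG this
        _ < 10 ^ 30 := by norm_num
    have hterm : ∀ a b : Fin 3, g (term D i M a.val b.val hl l1 l2 v0 v1) (⌊r * D⌋ + (M : ℤ)) <
        10 ^ 30 →
        wt a * wt b / 4 *
      (fh D M hl r / T t (fh D M hl) ((r + dv a + t * dv b) / 4)) ^ 3 *
        fh D M vl ((r + dv a + t * dv b) / 4) ≤
        (g (term D i M a.val b.val hl l1 l2 v0 v1) (⌊r * D⌋ + (M : ℤ)) : ℝ) / 1000 := by
      intro a b hb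
      unfold term at hb ⊢
      rw [g_tmL _ _ _ _ _ hk0 hk1] at hb ⊢
      have h := tm_ge (W2 a.val * W2 b.val) (g hl (⌊r * D⌋ + (M : ℤ)))
        (g (TH D i a.val b.val hl l1 l2) (⌊r * D⌋ + (M : ℤ)))
        (g (VV D i M a.val b.val v0 v1) (⌊r * D⌋ + (M : ℤ)))
        (T t (fh D M hl) ((r + dv a + t * dv b) / 4))
        (fh D M vl ((r + dv a + t * dv b) / 4)) (Nat.mul_pos (W2_pos _) (W2_pos _))
        (TH_le D i M hD t τ hτ h0 h1 hl r hk0 a b) (fh_nonneg _ _ _ _)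
        (le_VV D i M a.val b.val (fin_le b) vl r τ _ h0 h1 hk0 (by
          rw [← hτ]; unfold dv; ring)) hb
      refine le_trans (le_of_eq ?_) h
      rw [wt_eq a, wt_eq b]
      unfold fh
      push_cast
      ring
    simp only [Fin.sum_univ_three]
    have t00 := hterm 0 0
    have t01 := hterm 0 1
    have t02 := hterm 0 2
    have t10 := hterm 1 0
    have t11 := hterm 1 1
    have t12 := hterm 1 2
    have t20 := hterm 2 0
    have t21 := hterm 2 1
    have t22 := hterm 2 2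
    simp only [Fin.val_zero, Fin.val_one, Fin.val_two] at t00 t01 t02 t10 t11 t12 t20 t21 t22
    have t00 := t00 (by omega)
    have t01 := t01 (by omega)
    have t02 := t02 (by omega)
    have t10 := t10 (by omega)
    have t11 := t11 (by omega)
    have t12 := t12 (by omega)
    have t20 := t20 (by omega)
    have t21 := t21 (by omega)
    have t22 := t22 (by omega)
    have hle' : ((_ : ℕ) : ℝ) ≤ ((_ : ℕ) : ℝ) := Nat.cast_le.2 hle
    push_cast at hle'
    have hfin : fh D M vl r = (g vl (⌊r * D⌋ + (M : ℤ)) : ℝ) := rfl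
    rw [hfin]
    linarith
  · have hz : fh D M hl r = 0 := by
      unfold fh
      rw [not_and_or] at hk
      rcases hk with hk | hk
      · rw [g_neg (by omega)]; simp
      · rw [g_ge (by omega)]; simp
    rw [hz]
    simp only [zero_div, ne_eq, OfNat.ofNat_ne_zero, not_false_eq_true, zero_pow, mul_zero, zero_mul,
      Finset.sum_const_zero]
    exact mul_nonneg (by positivity) (fh_nonneg _ _ _ _)

end Pool.Agent.FCQ.CMc
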