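import Pool.Agent.FCQ.CMc.Sound3

/-!
# The certificate in one variable: the structure
-/

set_option autoImplicit false

namespace Pool.Agent.FCQ.CMc

open Set

theorem blt_iff {a b : ℕ} : Nat.blt a b = true ↔ a < b := by
  unfold Nat.blt
  rw [ble_iff]
  rfl

/-- some digit brings the point back -/
theorem digit (t x : ℝ) (h1 : 1 / 2 ≤ t) (h2 : t ≤ 1) (hx : |x| ≤ 31 / 32 + t) :
    ∃ a b : Fin 3, |4 * x - dv a - t * dv b| ≤ 9 / 10 + t := by
  rw [abs_le] at hx
  obtain ⟨hx1, hx2⟩ := hx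
  rcases le_total 0 x with h0 | h0
  · by_cases c1 : 4 * x ≤ 9 / 10 + t
    · refine ⟨1, 1, ?_⟩
      rw [dv_one, abs_le]; constructor <;> linarith
    · by_cases c2 : 4 * x - 3 * t ≤ 9 / 10 + t
      · refine ⟨1, 2, ?_⟩
        rw [dv_one, dv_two, abs_le]; constructor <;> linarith
      · by_cases c3 : 4 * x - 3 ≤ 9 / 10 + t
        · refine ⟨2, 1, ?_⟩
          rw [dv_one, dv_two, abs_le]; constructor <;> linarith
        · refine ⟨2, 2, ?_⟩
          rw [dv_two, abs_le]; constructor <;> linarith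
  · by_cases c1 : -(9 / 10 + t) ≤ 4 * x
    · refine ⟨1, 1, ?_⟩
      rw [dv_one, abs_le]; constructor <;> linarith
    · by_cases c2 : -(9 / 10 + t) ≤ 4 * x + 3 * t
      · refine ⟨1, 0, ?_⟩
        rw [dv_one, dv_zero, abs_le]; constructor <;> linarith
      · by_cases c3 : -(9 / 10 + t) ≤ 4 * x + 3
        · refine ⟨0, 1, ?_⟩
          rw [dv_one, dv_zero, abs_le]; constructor <;> linarith
        · refine ⟨0, 0, ?_⟩
          rw [dv_zero, abs_le]; constructor <;> linarith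

theorem g_bound {M C : ℕ} {hr : List ℕ} (hlen : hr.length = M) (hb : boundL C hr = true) (k : ℤ) :
    g (hr.reverse ++ hr) k ≤ C ∧
      (0 ≤ k → k < 2 * M → 1 ≤ g (hr.reverse ++ hr) k) ∧
      (g (hr.reverse ++ hr) k ≠ 0 → 0 ≤ k ∧ k < 2 * M) := by
  have hmem : ∀ a ∈ hr.reverse ++ hr, 1 ≤ a ∧ a ≤ C := by
    intro a ha
    rw [List.mem_append, List.mem_reverse, or_self] at ha
    exact boundL_le C hr hb a ha
  have hL : (hr.reverse ++ hr).length = 2 * M := by
    rw [List.length_append, List.length_reverse, hlen]; ring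
  by_cases h0 : 0 ≤ k ∧ k < 2 * M
  · obtain ⟨h1, h2⟩ := h0
    obtain ⟨n, rfl⟩ := Int.eq_ofNat_of_zero_le h1
    have hn : n < (hr.reverse ++ hr).length := by rw [hL]; omega
    rw [g_ofNat, List.getD_eq_getElem _ _ hn]
    have := hmem _ (List.getElem_mem hn)
    exact ⟨this.2, fun _ _ => this.1, fun _ => ⟨h1, h2⟩⟩
  · have hz : g (hr.reverse ++ hr) k = 0 := by
      rw [not_and_or] at h0
      rcases h0 with h0 | h0
      · exact g_neg (by omega)
      · exact g_ge (by rw [hL]; push_cast; omega)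
    rw [hz]
    exact ⟨Nat.zero_le _, fun h1 h2 => absurd ⟨h1, h2⟩ h0, fun h => absurd rfl h⟩

theorem sound (D i M G : ℕ) (hr vr : List ℕ) (hD : 0 < D) (hc : chk D i M G hr vr = true) (t : ℝ)
    (ht1 : (i : ℝ) ≤ 3 * D * t) (ht2 : 3 * D * t ≤ i + 1) (h12 : 1 / 2 ≤ t) (ht : t ≤ 1) :
    ∃ h V, Cm t 1 (2 ^ 24) ((G : ℝ) / 1000) h V := by
  unfold chk at hc
  simp only [Bool.and_eq_true] at hc
  obtain ⟨c1, c2, c3, c4, c5, c6, c7, c8⟩ := hc
  have c1 := ble_iff.1 c1
  have c2 := blt_iff.1 c2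
  have c3 := Nat.eq_of_beq_eq_true c3
  have c4 := Nat.eq_of_beq_eq_true c4
  have c7 := ble_iff.1 c7
  have hDr : (0 : ℝ) < D := by exact_mod_cast hD
  have e1 : (96 : ℝ) * M ≤ 93 * D + 32 * i := by exact_mod_cast c1
  have e2 : (27 : ℝ) * D + 10 * (i + 1) < 30 * M := by exact_mod_cast c2
  have hb1 := fun k => g_bound (M := M) c3 c5 k
  have hb2 := fun k => g_bound (M := M) c4 c6 k
  -- the range of the cells
  have hcell : ∀ x : ℝ, |x| ≤ 9 / 10 + t → 0 ≤ ⌊x * D⌋ + (M : ℤ) ∧ ⌊x * D⌋ + (M : ℤ) < 2 * M := by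
    intro x hx
    rw [abs_le] at hx
    have h3 : (9 / 10 + t) * D < M := by nlinarith
    have h4 : -(M : ℝ) ≤ x * D := by nlinarith
    have h5 : x * D < M := by nlinarith
    have h6 : -(M : ℤ) ≤ ⌊x * D⌋ := Int.le_floor.2 (by push_cast; exact h4)
    have h7 : ⌊x * D⌋ < (M : ℤ) := Int.floor_lt.2 (by push_cast; exact h5)
    constructor <;> omega
  have hsup : ∀ x : ℝ, fh D M (vr.reverse ++ vr) x ≠ 0 → |x| ≤ 31 / 32 + t := by
    intro x hx
    have hx' : g (vr.reverse ++ vr) (⌊x * D⌋ + (M : ℤ)) ≠ 0 := by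
      intro h; apply hx; unfold fh; rw [h]; simp
    obtain ⟨h3, h4⟩ := (hb2 _).2.2 hx'
    have h5 : -(M : ℝ) ≤ x * D := by
      have : -(M : ℤ) ≤ ⌊x * D⌋ := by omega
      have := Int.le_floor.1 this
      push_cast at this
      exact this
    have h6 : x * D < M := by
      have : ⌊x * D⌋ < (M : ℤ) := by omega
      have := Int.floor_lt.1 this
      push_cast at this
      exact this
    have h7 : (M : ℝ) ≤ (31 / 32 + t) * D := by nlinarith
    rw [abs_le]
    constructor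
    · have : -(31 / 32 + t) * D ≤ x * D := by linarith
      exact le_of_mul_le_mul_right this hDr
    · have : x * D ≤ (31 / 32 + t) * D := by linarith
      exact le_of_mul_le_mul_right this hDr
  refine ⟨fh D M (hr.reverse ++ hr), fh D M (vr.reverse ++ vr), ?_⟩
  refine ⟨measurable_fh _ _ _, measurable_fh _ _ _, fh_nonneg _ _ _, ?_, fh_nonneg _ _ _, ?_, ?_,
    hsup, ?_, ?_⟩
  · intro x
    have := (hb1 (⌊x * D⌋ + (M : ℤ))).1
    unfold fh
    exact_mod_cast this
  · intro x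
    have := (hb2 (⌊x * D⌋ + (M : ℤ))).1
    unfold fh
    exact_mod_cast this
  · intro x hx
    obtain ⟨h3, h4⟩ := hcell x hx
    have := (hb2 (⌊x * D⌋ + (M : ℤ))).2.1 h3 h4
    unfold fh
    exact_mod_cast this
  · intro x hx
    obtain ⟨a, b, hab⟩ := digit t x h12 ht (hsup x hx)
    obtain ⟨h3, h4⟩ := hcell _ hab
    have h5 := (hb1 _).2.1 h3 h4
    have h6 : (1 : ℝ) ≤ fh D M (hr.reverse ++ hr) (4 * x - dv a - t * dv b) := by
      unfold fh
      exact_mod_cast h5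
    have h7 := T_ge (φ := fh D M (hr.reverse ++ hr)) (fh_nonneg _ _ _) t x a b
    have h8 := wt_pos a
    have h9 := wt_pos b
    have h10 := mul_pos h8 h9
    refine lt_of_lt_of_le ?_ h7
    exact mul_pos h10 (by linarith)
  · intro r
    exact ineq D i M G hD t (3 * D * t - i) (by ring) (by linarith) (by linarith) _ _ c7
      (fun k => by simpa using (hb2 k).1) c8 r

/-- monotonicity in `G` -/
theorem Cm_mono {t c0 C0 G G' : ℝ} {h V : ℝ → ℝ} (hc : Cm t c0 C0 G h V) (hG : G ≤ G') :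
    Cm t c0 C0 G' h V :=
  ⟨hc.mh, hc.mV, hc.h0, hc.hC, hc.V0, hc.VC, hc.lo, hc.sup, hc.pos, fun r =>
    (hc.ineq r).trans (mul_le_mul_of_nonneg_right hG (hc.V0 r))⟩

end Pool.Agent.FCQ.CMc
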